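import Pool.Agent.Y83.BF.Asy

/-!
# MP_6d4084_an: monic factors and weighted coefficient norms

For weights `c_0, ..., c_n > 0` let `[p]_c = max_j |a_j| / c_j` (`wnorm`), and for a norm (or any
functional) `N` let `SN n N` be the supremum of `‖q‖ / N p` over the monic polynomials `p` of degree
`n` and the monic divisors `q` of `p`; `‖q‖` is the maximum of `|q|` on the closed unit disc
(`diskNorm`, starting file). Put `K(n,c) = M(∑_j c_j |1 + x|^j)` (`KW`), a Mahler measure.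

**Theorem.**
1. For ALL weights `c`, all degrees `n ≥ 1` and all `N` with `[p]_c ≤ N p ≤ D [p]_c`:
   `K(n,c) / (D (n + 1)) ≤ SN n N ≤ K(n,c)`.
2. For `c_j = binom(n,j)^θ`, `θ ≥ 0`, and for the supremum norm as well as for all the norms
   `(∑ (|a_j| / c_j)^r)^(1/r)`, `r ≥ 1` (`rnorm`), the limit of `(SN n N)^(1/n)` exists and is
   `K_θ = M((1 + |1 + x|^(1/θ))^θ)`, `K_0 = M(max(1, |1 + x|))` (`KT`). All Bombieri norms
   `[p]_s = (∑ binom(n,j)^(1-s) |a_j|^s)^(1/s)`, `1 ≤ s < ∞` (`θ = 1 - 1/s`, `r = s`), the height and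
   the length (`θ = 0`) are of this form. The constant does not depend on `r`.
3. `K_(1/2)`, the constant of Bombieri's quadratic norm, is the golden ratio.
4. `K_1 = K`, the constant of the problem, and `K^n / (n + 1) ≤ S_n ≤ K^n`, `limsup S_n^(1/n) = K`
   (answer to Q1: yes).
-/

set_option autoImplicit false

open Polynomial Real Filter Topology

namespace Pool.Agent.Results.MP_6d4084_an.WeightedNorms

open Pool.Agent.Y83.BF Pool.Agent.Results.MP_6d4084_an.LimsupEqK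

theorem cth_one (n : ℕ) : cth 1 n = fun j => (n.choose j : ℝ) := by
  funext j
  unfold cth
  rw [Real.rpow_one]

/-- The quantity `S_n` of the problem is the one of the Bombieri weights. -/
theorem S_eq (n : ℕ) : S n = SN n (wnorm n (cth 1 n)) := by
  unfold S SN
  refine iSup_congr fun p => iSup_congr fun q => iSup_congr fun _ => iSup_congr fun hn => ?_
  subst hn
  rw [cth_one]
  rfl

theorem result :
    (∀ (n : ℕ) (c : ℕ → ℝ) (D : ℝ) (N : ℂ[X] → ℝ), 1 ≤ n → (∀ j ≤ n, 0 < c j) → 0 < D →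
      (∀ p : ℂ[X], p.Monic → p.natDegree = n → wnorm n c p ≤ N p ∧ N p ≤ D * wnorm n c p) →
      ENNReal.ofReal (KW n c / (D * (n + 1))) ≤ SN n N ∧ SN n N ≤ ENNReal.ofReal (KW n c)) ∧
    (∀ θ : ℝ, 0 ≤ θ →
      Tendsto (fun n : ℕ => SN n (wnorm n (cth θ n)) ^ (1 / (n : ℝ))) atTop
        (𝓝 (ENNReal.ofReal (KT θ))) ∧
      ∀ r : ℝ, 1 ≤ r → Tendsto (fun n : ℕ => SN n (rnorm r n (cth θ n)) ^ (1 / (n : ℝ))) atTop
        (𝓝 (ENNReal.ofReal (KT θ)))) ∧
    KT (1 / 2) = (1 + √5) / 2 ∧ KT 1 = K ∧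
    (∀ n : ℕ, 1 ≤ n → S n = SN n (wnorm n (cth 1 n)) ∧
      ENNReal.ofReal (K ^ n / (n + 1)) ≤ S n ∧ S n ≤ ENNReal.ofReal (K ^ n)) ∧
    limsup (fun n : ℕ => S n ^ (1 / (n : ℝ))) atTop = ENNReal.ofReal K := by
  have main : ∀ (n : ℕ) (c : ℕ → ℝ) (D : ℝ) (N : ℂ[X] → ℝ), 1 ≤ n → (∀ j ≤ n, 0 < c j) → 0 < D →
      (∀ p : ℂ[X], p.Monic → p.natDegree = n → wnorm n c p ≤ N p ∧ N p ≤ D * wnorm n c p) →
      ENNReal.ofReal (KW n c / (D * (n + 1))) ≤ SN n N ∧
        SN n N ≤ ENNReal.ofReal (KW n c) := by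
    intro n c D N hn hc hD hN
    obtain ⟨k, rfl⟩ : ∃ k, n = k + 1 := ⟨n - 1, by omega⟩
    refine ⟨?_, upper hc fun p h1 h2 => (hN p h1 h2).1⟩
    have h := lower k hc hD hN
    convert h using 4
    push_cast
    ring
  have hS : ∀ n : ℕ, 1 ≤ n → S n = SN n (wnorm n (cth 1 n)) ∧
      ENNReal.ofReal (K ^ n / (n + 1)) ≤ S n ∧ S n ≤ ENNReal.ofReal (K ^ n) := by
    intro n hn
    have h1 := main n (cth 1 n) 1 (wnorm n (cth 1 n)) hn (fun j hj => cth_pos 1 hj) one_pos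
      fun p _ _ => ⟨le_rfl, by rw [one_mul]⟩
    have h2 : KW n (cth 1 n) = K ^ n := by rw [cth_one]; exact KW_choose n
    rw [h2, one_mul, ← S_eq] at h1
    exact ⟨S_eq n, h1⟩
  refine ⟨main, fun θ hθ => ⟨tendsto_wnorm hθ, fun r hr => tendsto_rnorm hθ hr⟩, KT_half, KT_one,
    hS, ?_⟩
  have h := (tendsto_wnorm (θ := 1) zero_le_one).limsup_eq
  rw [KT_one] at h
  rw [← h]
  congr 1
  funext n
  rw [S_eq]

end Pool.Agent.Results.MP_6d4084_an.WeightedNorms
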